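import Pool.Agent.Q206.PI.Main

/-!
# A permutation invariant qubit code on 59 qubits correcting 4 errors

Since `3 * 4 ^ 2 + 3 * 4 + 1 = 61`, this disproves `n_min(t) = 3 t ^ 2 + 3 t + 1`.
-/

namespace Pool.Agent.Results.MP_901209_mp.FiftyNineQubits

open Pool.Agent.Q206.PI

/-- **Theorem** (answer to Q1, in the negative). There is a permutation invariant qubit code of
block length `59` correcting `4` errors, so `n_min(4) ≤ 59 < 61`, and the formula
`n_min(t) = 3 t ^ 2 + 3 t + 1` does not hold for all `t ≥ 1`. -/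
theorem result :
    (∃ α β : Fin (59 + 1) → ℂ, Corrects 59 4 ![codeword α, codeword β]) ∧
    nMin 4 ≤ 59 ∧ ¬ ∀ t : ℕ, 1 ≤ t → nMin t = 3 * t ^ 2 + 3 * t + 1 := by
  have h : nMin 4 ≤ 59 := Nat.sInf_le exists_code
  refine ⟨exists_code, h, fun hall => ?_⟩
  have := hall 4 (by norm_num)
  norm_num at this
  omega

end Pool.Agent.Results.MP_901209_mp.FiftyNineQubits
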